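import Pool.Agent.H88.PD.Win

/-!
Perfect difference sets (MP_35c1fe_nt): for `β < 2` a positive proportion (depending on `β` only)
of the `n ≤ N` has `a_n > N ^ β`, for infinitely many `N`.
-/

set_option autoImplicit false

namespace Pool.Agent.H88.PD

open Filter

/-- the number of `n ≤ N` with `a n ≤ X` -/
def cnt (a : ℕ → ℕ) (N X : ℕ) : ℕ := ((Finset.Icc 1 N).filter (fun n => a n ≤ X)).card

lemma cnt_mono (a : ℕ → ℕ) (N : ℕ) {X Y : ℕ} (h : X ≤ Y) : cnt a N X ≤ cnt a N Y := by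
  apply Finset.card_le_card
  intro n hn
  rw [Finset.mem_filter] at hn ⊢
  exact ⟨hn.1, hn.2.trans h⟩

lemma cnt_le (a : ℕ → ℕ) (N X : ℕ) : cnt a N X ≤ N := by
  refine (Finset.card_filter_le _ _).trans ?_
  simp

lemma card_le_sqrt {A : Set ℕ} (hA : IsPerfectDifferenceSet A) (T : Finset ℕ) (X : ℕ)
    (hT : ∀ x ∈ T, x ∈ A ∧ x ≤ X) : (T.card : ℝ) ≤ 2 * Real.sqrt X + 2 := by
  have h1 := card_sidon hA T X hT
  by_contra hlt
  push Not at hlt
  have hs := Real.sqrt_nonneg (X : ℝ)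
  have hs2 := Real.mul_self_sqrt (Nat.cast_nonneg (α := ℝ) X)
  have h2 : T.card * T.card ≤ 2 * X + 1 + T.card := by omega
  have h3 : (T.card : ℝ) * T.card ≤ 2 * X + 1 + T.card := by exact_mod_cast h2
  nlinarith

open scoped Classical in
/-- the elements of `A` in `(X₁, X]` -/
noncomputable def blk (A : Set ℕ) (X₁ X : ℕ) : Finset ℕ :=
  (Finset.Ioc X₁ X).filter (fun x => x ∈ A)

open scoped Classical in
/-- the elements of `A` up to `X` -/
noncomputable def ini (A : Set ℕ) (X : ℕ) : Finset ℕ := (Finset.range (X + 1)).filter (fun x => x ∈ A)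

lemma mem_blk {A : Set ℕ} {X₁ X x : ℕ} : x ∈ blk A X₁ X ↔ (X₁ < x ∧ x ≤ X) ∧ x ∈ A := by
  classical
  rw [blk, Finset.mem_filter, Finset.mem_Ioc]

lemma mem_ini {A : Set ℕ} {X x : ℕ} : x ∈ ini A X ↔ x ≤ X ∧ x ∈ A := by
  classical
  rw [ini, Finset.mem_filter, Finset.mem_range, Nat.lt_succ_iff]

lemma card_blk {A : Set ℕ} (hA : IsPerfectDifferenceSet A) (X₁ X : ℕ) :
    ((blk A X₁ X).card : ℝ) ≤ 2 * Real.sqrt X + 2 :=
  card_le_sqrt hA _ X fun x hx => by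
    rw [mem_blk] at hx
    exact ⟨hx.2, hx.1.2⟩

lemma card_ini {A : Set ℕ} (hA : IsPerfectDifferenceSet A) (X : ℕ) :
    ((ini A X).card : ℝ) ≤ 2 * Real.sqrt X + 2 :=
  card_le_sqrt hA _ X fun x hx => by
    rw [mem_ini] at hx
    exact ⟨hx.2, hx.1⟩

section
variable {A : Set ℕ} {a b : ℕ → ℕ}

lemma split1 (hab : ∀ d, 1 ≤ d → a d ∈ A ∧ b d ∈ A ∧ a d = b d + d) (N X X₁ : ℕ) :
    cnt a N X ≤ cnt a N (X₁ + N) + (pr (blk A X₁ X) N).card := by
  classical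
  have h1 : (Finset.Icc 1 N).filter (fun n => a n ≤ X) ⊆
      (Finset.Icc 1 N).filter (fun n => a n ≤ X₁ + N) ∪
      (Finset.Icc 1 N).filter (fun n => (b n, a n) ∈ pr (blk A X₁ X) N) := by
    intro n hn
    rw [Finset.mem_filter, Finset.mem_Icc] at hn
    rw [Finset.mem_union, Finset.mem_filter, Finset.mem_filter, Finset.mem_Icc]
    obtain ⟨h1, h2, h3⟩ := hab n hn.1.1
    by_cases h : a n ≤ X₁ + N
    · exact Or.inl ⟨hn.1, h⟩
    · refine Or.inr ⟨hn.1, ?_⟩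
      rw [pr, Finset.mem_filter, Finset.mem_product]
      simp only [mem_blk]
      exact ⟨⟨⟨⟨by omega, by omega⟩, h2⟩, ⟨by omega, hn.2⟩, h1⟩, by omega, by omega⟩
  have h2 : ((Finset.Icc 1 N).filter (fun n => (b n, a n) ∈ pr (blk A X₁ X) N)).card ≤
      (pr (blk A X₁ X) N).card := by
    apply Finset.card_le_card_of_injOn (fun n => (b n, a n))
    · intro n hn
      have := Finset.mem_coe.1 hn
      rw [Finset.mem_filter] at this
      exact Finset.mem_coe.2 this.2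
    · intro n hn m hm h
      have h3 := Finset.mem_coe.1 hn
      have h4 := Finset.mem_coe.1 hm
      rw [Finset.mem_filter, Finset.mem_Icc] at h3 h4
      have h5 := (hab n h3.1.1).2.2
      have h6 := (hab m h4.1.1).2.2
      simp only [Prod.mk.injEq] at h
      omega
  exact (Finset.card_le_card h1).trans ((Finset.card_union_le _ _).trans
    (Nat.add_le_add_left h2 _))

lemma split2 (hab : ∀ d, 1 ≤ d → a d ∈ A ∧ b d ∈ A ∧ a d = b d + d) (N X X₁ : ℕ) :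
    cnt a N X ≤ (ini A X₁).card * (ini A (X₁ + N)).card + (pr (blk A X₁ X) N).card := by
  classical
  have h1 : (Finset.Icc 1 N).filter (fun n => a n ≤ X) ⊆
      (Finset.Icc 1 N).filter (fun n => (b n, a n) ∈ ini A X₁ ×ˢ ini A (X₁ + N)) ∪
      (Finset.Icc 1 N).filter (fun n => (b n, a n) ∈ pr (blk A X₁ X) N) := by
    intro n hn
    rw [Finset.mem_filter, Finset.mem_Icc] at hn
    rw [Finset.mem_union, Finset.mem_filter, Finset.mem_filter, Finset.mem_Icc]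
    obtain ⟨h1, h2, h3⟩ := hab n hn.1.1
    by_cases h : b n ≤ X₁
    · refine Or.inl ⟨hn.1, ?_⟩
      rw [Finset.mem_product]
      simp only [mem_ini]
      exact ⟨⟨h, h2⟩, by omega, h1⟩
    · refine Or.inr ⟨hn.1, ?_⟩
      rw [pr, Finset.mem_filter, Finset.mem_product]
      simp only [mem_blk]
      exact ⟨⟨⟨⟨by omega, by omega⟩, h2⟩, ⟨by omega, hn.2⟩, h1⟩, by omega, by omega⟩
  have hinj : ∀ F : Finset (ℕ × ℕ),
      ((Finset.Icc 1 N).filter (fun n => (b n, a n) ∈ F)).card ≤ F.card := by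
    intro F
    apply Finset.card_le_card_of_injOn (fun n => (b n, a n))
    · intro n hn
      have := Finset.mem_coe.1 hn
      rw [Finset.mem_filter] at this
      exact Finset.mem_coe.2 this.2
    · intro n hn m hm h
      have h3 := Finset.mem_coe.1 hn
      have h4 := Finset.mem_coe.1 hm
      rw [Finset.mem_filter, Finset.mem_Icc] at h3 h4
      have h5 := (hab n h3.1.1).2.2
      have h6 := (hab m h4.1.1).2.2
      simp only [Prod.mk.injEq] at h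
      omega
  have h3 := hinj (ini A X₁ ×ˢ ini A (X₁ + N))
  rw [Finset.card_product] at h3
  exact (Finset.card_le_card h1).trans ((Finset.card_union_le _ _).trans
    (Nat.add_le_add h3 (hinj _)))

lemma pr_small (hA : IsPerfectDifferenceSet A)
    (hab : ∀ d, 1 ≤ d → a d ∈ A ∧ b d ∈ A ∧ a d = b d + d) (w X X₁ : ℕ) :
    (pr (blk A X₁ X) (w - 1)).card + cnt a w X₁ ≤ w := by
  classical
  have h1 : (pr (blk A X₁ X) (w - 1)).card ≤
      ((Finset.Icc 1 w).filter (fun n => ¬ a n ≤ X₁)).card := by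
    apply Finset.card_le_card_of_injOn (fun p => p.2 - p.1)
    · rintro ⟨x, y⟩ hp
      have hp1 := Finset.mem_coe.1 hp
      rw [pr, Finset.mem_filter, Finset.mem_product] at hp1
      simp only [mem_blk] at hp1
      obtain ⟨⟨⟨⟨h1, h2⟩, h3⟩, ⟨h4, h5⟩, h6⟩, h7, h8⟩ := hp1
      apply Finset.mem_coe.2
      rw [Finset.mem_filter, Finset.mem_Icc]
      simp only
      refine ⟨⟨by omega, by omega⟩, ?_⟩
      obtain ⟨e1, e2, e3⟩ := hab (y - x) (by omega)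
      have := (pds_unique hA h6 h3 e1 e2 (n := y - x) (by omega) (by omega) e3).1
      omega
    · rintro ⟨x, y⟩ hp ⟨x', y'⟩ hq h
      have hp1 := Finset.mem_coe.1 hp
      have hq1 := Finset.mem_coe.1 hq
      rw [pr, Finset.mem_filter, Finset.mem_product] at hp1 hq1
      simp only [mem_blk] at hp1 hq1 h
      obtain ⟨⟨⟨⟨h1, h2⟩, h3⟩, ⟨h4, h5⟩, h6⟩, h7, h8⟩ := hp1
      obtain ⟨⟨⟨⟨k1, k2⟩, k3⟩, ⟨k4, k5⟩, k6⟩, k7, k8⟩ := hq1
      have := pds_unique hA h6 h3 k6 k3 (n := y - x) (by omega) (by omega) (by omega)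
      rw [Prod.mk.injEq]
      exact ⟨this.2, this.1⟩
  have h2 : ((Finset.Icc 1 w).filter (fun n => a n ≤ X₁)).card +
      ((Finset.Icc 1 w).filter (fun n => ¬ a n ≤ X₁)).card = (Finset.Icc 1 w).card :=
    Finset.card_filter_add_card_filter_not _
  rw [Nat.card_Icc, Nat.add_sub_cancel] at h2
  rw [cnt]
  omega

end

/-- powers of `N` -/
lemma ev_pow {p q : ℝ} (h : p < q) (C c : ℝ) (hc : 0 < c) :
    ∀ᶠ N : ℕ in atTop, C * (N : ℝ) ^ p ≤ c * (N : ℝ) ^ q := by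
  have h1 : Tendsto (fun N : ℕ => (N : ℝ) ^ (q - p)) atTop atTop :=
    (tendsto_rpow_atTop (by linarith)).comp tendsto_natCast_atTop_atTop
  filter_upwards [h1.eventually_ge_atTop (C / c), eventually_ge_atTop 1] with N hN hN1
  have hN0 : (0 : ℝ) < N := by exact_mod_cast hN1
  have h2 : (N : ℝ) ^ q = (N : ℝ) ^ p * (N : ℝ) ^ (q - p) := by
    rw [← Real.rpow_add hN0]
    congr 1
    ring
  have h3 : 0 < (N : ℝ) ^ p := Real.rpow_pos_of_pos hN0 _
  rw [div_le_iff₀ hc] at hN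
  rw [h2]
  nlinarith

/-- the counting hypothesis -/
def Hyp (a : ℕ → ℕ) (β δ : ℝ) : Prop :=
  ∀ᶠ N : ℕ in atTop, (1 - δ) * N ≤ cnt a N ⌊(N : ℝ) ^ β⌋₊

section
variable {A : Set ℕ} {a b : ℕ → ℕ}

/-- the number of pairs in the high block -/
lemma pr_bound (hA : IsPerfectDifferenceSet A)
    (hab : ∀ d, 1 ≤ d → a d ∈ A ∧ b d ∈ A ∧ a d = b d + d) {β γ δ : ℝ} (hγ0 : 0 < γ)
    (hγ : β / 2 < γ) (hγ1 : γ < 1) (hβ : 0 < β) (hδ : 0 < δ) (hH : Hyp a β δ) :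
    ∀ᶠ N : ℕ in atTop, ∃ X₁ : ℕ, (X₁ : ℝ) ≤ 2 ^ β * (N : ℝ) ^ (γ * β) ∧
      ((pr (blk A X₁ ⌊(N : ℝ) ^ β⌋₊) N).card : ℝ) ≤ 7 * δ * N := by
  have hw : Tendsto (fun N : ℕ => ⌈(N : ℝ) ^ γ⌉₊) atTop atTop :=
    tendsto_nat_ceil_atTop.comp ((tendsto_rpow_atTop hγ0).comp tendsto_natCast_atTop_atTop)
  have hH' := hw.eventually hH
  filter_upwards [hH', eventually_ge_atTop 1, ev_pow (p := 0) (q := γ) hγ0 1 1 one_pos,
    ev_pow (p := γ) (q := 1) hγ1 2 1 one_pos, ev_pow (p := 0) (q := β / 2) (by linarith) 1 1 one_pos,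
    ev_pow (p := 1 + β / 2 - γ) (q := 1) (by linarith) 12 δ hδ] with N h1 hN1 h2 h3 h4 h5
  obtain ⟨w, hwdef⟩ : ∃ w : ℕ, w = ⌈(N : ℝ) ^ γ⌉₊ := ⟨_, rfl⟩
  rw [← hwdef] at h1
  have hN0 : (0 : ℝ) < N := by exact_mod_cast hN1
  rw [Real.rpow_zero] at h2 h4
  rw [Real.rpow_one] at h3 h5
  have hNγ : (1 : ℝ) ≤ (N : ℝ) ^ γ := by linarith
  have hw1 : (N : ℝ) ^ γ ≤ w := by rw [hwdef]; exact Nat.le_ceil _
  have hw2 : (w : ℝ) ≤ 2 * (N : ℝ) ^ γ := by
    have : (w : ℝ) < (N : ℝ) ^ γ + 1 := by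
      rw [hwdef]
      exact Nat.ceil_lt_add_one (by linarith)
    linarith
  have hw3 : 1 ≤ w := by
    have : (1 : ℝ) ≤ w := by linarith
    exact_mod_cast this
  have hw0 : (0 : ℝ) < w := by exact_mod_cast hw3
  have hwN : (w : ℝ) ≤ N := by linarith
  have hwN' : w ≤ N := by exact_mod_cast hwN
  refine ⟨⌊(w : ℝ) ^ β⌋₊, ?_, ?_⟩
  · calc ((⌊(w : ℝ) ^ β⌋₊ : ℕ) : ℝ) ≤ (w : ℝ) ^ β := Nat.floor_le (Real.rpow_nonneg hw0.le _)
      _ ≤ (2 * (N : ℝ) ^ γ) ^ β := Real.rpow_le_rpow hw0.le hw2 hβ.le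
      _ = 2 ^ β * (N : ℝ) ^ (γ * β) := by
          rw [Real.mul_rpow (by norm_num) (by positivity), ← Real.rpow_mul hN0.le]
  · obtain ⟨X₁, hX₁⟩ : ∃ X₁ : ℕ, X₁ = ⌊(w : ℝ) ^ β⌋₊ := ⟨_, rfl⟩
    obtain ⟨X, hX⟩ : ∃ X : ℕ, X = ⌊(N : ℝ) ^ β⌋₊ := ⟨_, rfl⟩
    rw [← hX₁] at h1
    rw [← hX₁, ← hX]
    have k1 := pr_small hA hab w X X₁
    have k2 := card_pr_le (blk A X₁ X) N w (N / w + 1) hw3 (by
      have := Nat.div_add_mod N w
      have := Nat.mod_lt N hw3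
      nlinarith)
    have k3 := card_blk hA X₁ X
    have k1' : ((pr (blk A X₁ X) (w - 1)).card : ℝ) + cnt a w X₁ ≤ w := by exact_mod_cast k1
    have k2' : ((pr (blk A X₁ X) N).card : ℝ) ≤ (((N / w : ℕ) : ℝ) + 1 + 1) *
        ((blk A X₁ X).card + 2 * (pr (blk A X₁ X) (w - 1)).card) := by exact_mod_cast k2
    have k4 : (((N / w : ℕ) : ℝ)) ≤ N / w := Nat.cast_div_le
    have k5 : (((N / w : ℕ) : ℝ) + 1 + 1) ≤ 3 * (N / w) := by
      have : (1 : ℝ) ≤ N / w := by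
        rw [le_div_iff₀ hw0]
        linarith
      linarith
    have k6 : Real.sqrt X ≤ (N : ℝ) ^ (β / 2) := by
      rw [Real.sqrt_le_left (by positivity)]
      calc (X : ℝ) ≤ (N : ℝ) ^ β := by
            rw [hX]
            exact Nat.floor_le (Real.rpow_nonneg hN0.le _)
        _ = ((N : ℝ) ^ (β / 2)) ^ 2 := by
            rw [← Real.rpow_natCast, ← Real.rpow_mul hN0.le]
            congr 1
            push_cast
            ring
    have k7 : ((blk A X₁ X).card : ℝ) ≤ 4 * (N : ℝ) ^ (β / 2) := by linarith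
    have k8 : ((pr (blk A X₁ X) (w - 1)).card : ℝ) ≤ δ * w := by linarith
    have k9 : ((pr (blk A X₁ X) N).card : ℝ) ≤ 3 * (N / w) *
        (4 * (N : ℝ) ^ (β / 2) + 2 * (δ * w)) := by
      refine k2'.trans (mul_le_mul k5 (by linarith) (by positivity) (by positivity))
    have k10 : 3 * ((N : ℝ) / w) * (4 * (N : ℝ) ^ (β / 2) + 2 * (δ * w)) =
        12 * ((N : ℝ) ^ (β / 2) * N / w) + 6 * δ * N := by
      field_simp
      ring
    have k11 : (N : ℝ) ^ (β / 2) * N / w ≤ (N : ℝ) ^ (1 + β / 2 - γ) := by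
      rw [div_le_iff₀ hw0]
      have e1 : (N : ℝ) ^ (β / 2) * N = (N : ℝ) ^ (1 + β / 2 - γ) * (N : ℝ) ^ γ := by
        rw [← Real.rpow_add hN0]
        have e2 : 1 + β / 2 - γ + γ = β / 2 + 1 := by ring
        rw [e2, Real.rpow_add hN0, Real.rpow_one]
      rw [e1]
      exact mul_le_mul_of_nonneg_left hw1 (by positivity)
    linarith

lemma step (hA : IsPerfectDifferenceSet A)
    (hab : ∀ d, 1 ≤ d → a d ∈ A ∧ b d ∈ A ∧ a d = b d + d) {β β' δ : ℝ}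
    (hβ : 0 < β) (hβ2 : β < 2) (hβ' : 1 < β') (hββ : β ^ 2 / 2 < β') (hδ : 0 < δ)
    (hH : Hyp a β δ) : Hyp a β' (8 * δ) := by
  obtain ⟨γ, hγ, hγ1, hγβ⟩ : ∃ γ : ℝ, β / 2 < γ ∧ γ < 1 ∧ γ * β < β' := by
    have h1 : β / 2 < min 1 (β' / β) := by
      rw [lt_min_iff]
      refine ⟨by linarith, ?_⟩
      rw [lt_div_iff₀ hβ]
      nlinarith
    obtain ⟨γ, h2, h3⟩ := exists_between h1
    rw [lt_min_iff] at h3
    refine ⟨γ, h2, h3.1, ?_⟩
    rw [← lt_div_iff₀ hβ]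
    exact h3.2
  have hγ0 : 0 < γ := by linarith
  unfold Hyp at hH ⊢
  filter_upwards [hH, pr_bound hA hab hγ0 hγ hγ1 hβ hδ hH,
    ev_pow hγβ (2 ^ β) (1 / 2) (by norm_num), ev_pow hβ' 1 (1 / 2) (by norm_num),
    eventually_ge_atTop 1] with N h1 h2 h3 h4 hN1
  obtain ⟨X₁, h5, h6⟩ := h2
  have hN0 : (0 : ℝ) < N := by exact_mod_cast hN1
  have k1 := split1 hab N ⌊(N : ℝ) ^ β⌋₊ X₁
  have k2 : cnt a N (X₁ + N) ≤ cnt a N ⌊(N : ℝ) ^ β'⌋₊ := by
    apply cnt_mono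
    apply Nat.le_floor
    push_cast
    rw [Real.rpow_one] at h4
    linarith
  have k1' : (cnt a N ⌊(N : ℝ) ^ β⌋₊ : ℝ) ≤ cnt a N (X₁ + N) +
      (pr (blk A X₁ ⌊(N : ℝ) ^ β⌋₊) N).card := by exact_mod_cast k1
  have k2' : (cnt a N (X₁ + N) : ℝ) ≤ cnt a N ⌊(N : ℝ) ^ β'⌋₊ := by exact_mod_cast k2
  linarith

lemma last (hA : IsPerfectDifferenceSet A)
    (hab : ∀ d, 1 ≤ d → a d ∈ A ∧ b d ∈ A ∧ a d = b d + d) {β δ : ℝ}
    (hβ : 0 < β) (hβ2 : β ≤ 7 / 5) (hδ : 0 < δ) (hδ1 : δ ≤ 1 / 10)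
    (hH : Hyp a β δ) : False := by
  obtain ⟨γ, hγ, hγ1, hγβ⟩ : ∃ γ : ℝ, β / 2 < γ ∧ γ < 1 ∧ γ * β < 1 := by
    have h1 : β / 2 < min 1 (1 / β) := by
      rw [lt_min_iff]
      refine ⟨by linarith, ?_⟩
      rw [lt_div_iff₀ hβ]
      nlinarith
    obtain ⟨γ, h2, h3⟩ := exists_between h1
    rw [lt_min_iff] at h3
    refine ⟨γ, h2, h3.1, ?_⟩
    rw [← lt_div_iff₀ hβ]
    exact h3.2
  have hγ0 : 0 < γ := by linarith
  have hev : ∀ᶠ N : ℕ in atTop, False := by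
    filter_upwards [hH, pr_bound hA hab hγ0 hγ hγ1 hβ hδ hH,
      ev_pow hγβ (2 ^ β) 1 one_pos,
      ev_pow (p := (γ * β + 1) / 2) (q := 1) (by linarith) 1000 δ hδ,
      ev_pow (p := 0) (q := γ * β) (by positivity) 1 1 one_pos,
      eventually_ge_atTop 1] with N h1 h2 h3 h4 h7 hN1
    obtain ⟨X₁, h5, h6⟩ := h2
    have hN0 : (0 : ℝ) < N := by exact_mod_cast hN1
    rw [Real.rpow_one] at h3 h4
    rw [Real.rpow_zero] at h7
    have k1 := split2 hab N ⌊(N : ℝ) ^ β⌋₊ X₁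
    have k1' : (cnt a N ⌊(N : ℝ) ^ β⌋₊ : ℝ) ≤ (ini A X₁).card * (ini A (X₁ + N)).card +
        (pr (blk A X₁ ⌊(N : ℝ) ^ β⌋₊) N).card := by exact_mod_cast k1
    have k2 := card_ini hA X₁
    have k3 := card_ini hA (X₁ + N)
    have hβ4 : (2 : ℝ) ^ β ≤ 4 := by
      calc (2 : ℝ) ^ β ≤ 2 ^ (2 : ℝ) := Real.rpow_le_rpow_of_exponent_le (by norm_num) (by linarith)
        _ = 4 := by norm_num
    have k4 : Real.sqrt X₁ ≤ 2 * (N : ℝ) ^ (γ * β / 2) := by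
      rw [Real.sqrt_le_left (by positivity)]
      calc (X₁ : ℝ) ≤ 4 * (N : ℝ) ^ (γ * β) :=
            h5.trans (mul_le_mul_of_nonneg_right hβ4 (by positivity))
        _ = (2 * (N : ℝ) ^ (γ * β / 2)) ^ 2 := by
            rw [mul_pow, ← Real.rpow_natCast ((N : ℝ) ^ (γ * β / 2)), ← Real.rpow_mul hN0.le]
            norm_num
    have k5 : Real.sqrt ((X₁ + N : ℕ) : ℝ) ≤ 2 * (N : ℝ) ^ (1 / 2 : ℝ) := by
      rw [Real.sqrt_le_left (by positivity)]
      have e1 : (2 * (N : ℝ) ^ (1 / 2 : ℝ)) ^ 2 = 4 * N := by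
        rw [mul_pow, ← Real.rpow_natCast ((N : ℝ) ^ (1 / 2 : ℝ)), ← Real.rpow_mul hN0.le]
        norm_num
      rw [e1]
      push_cast
      linarith
    have h8 : (1 : ℝ) ≤ (N : ℝ) ^ (γ * β / 2) := by
      apply Real.one_le_rpow _ (by positivity)
      exact_mod_cast hN1
    have h9 : (1 : ℝ) ≤ (N : ℝ) ^ (1 / 2 : ℝ) := by
      apply Real.one_le_rpow _ (by positivity)
      exact_mod_cast hN1
    have k6 : ((ini A X₁).card : ℝ) * (ini A (X₁ + N)).card ≤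
        (6 * (N : ℝ) ^ (γ * β / 2)) * (6 * (N : ℝ) ^ (1 / 2 : ℝ)) := by
      apply mul_le_mul
      · linarith
      · linarith
      · positivity
      · positivity
    have k7 : (6 * (N : ℝ) ^ (γ * β / 2)) * (6 * (N : ℝ) ^ (1 / 2 : ℝ)) =
        36 * (N : ℝ) ^ ((γ * β + 1) / 2) := by
      have : (N : ℝ) ^ ((γ * β + 1) / 2) = (N : ℝ) ^ (γ * β / 2) * (N : ℝ) ^ (1 / 2 : ℝ) := by
        rw [← Real.rpow_add hN0]
        congr 1
        ring
      rw [this]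
      ring
    have k8 : 0 ≤ (N : ℝ) ^ ((γ * β + 1) / 2) := by positivity
    nlinarith
  exact (hev.exists).elim fun _ h => h

end

lemma Hyp_mono {a : ℕ → ℕ} {β β' δ : ℝ} (h : β ≤ β') (hH : Hyp a β δ) : Hyp a β' δ := by
  unfold Hyp at hH ⊢
  filter_upwards [hH, eventually_ge_atTop 1] with N h1 hN1
  refine h1.trans ?_
  have : cnt a N ⌊(N : ℝ) ^ β⌋₊ ≤ cnt a N ⌊(N : ℝ) ^ β'⌋₊ := by
    apply cnt_mono
    apply Nat.floor_le_floor
    apply Real.rpow_le_rpow_of_exponent_le _ h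
    exact_mod_cast hN1
  exact_mod_cast this

/-- for `β < 2` there is `δ > 0` such that the hypothesis fails for every perfect difference set -/
theorem no_hyp (β : ℝ) (hβ : β < 2) : ∃ δ : ℝ, 0 < δ ∧ ∀ (A : Set ℕ) (a b : ℕ → ℕ),
    IsPerfectDifferenceSet A → (∀ d, 1 ≤ d → a d ∈ A ∧ b d ∈ A ∧ a d = b d + d) →
    ¬ Hyp a β δ := by
  have key : ∀ k : ℕ, ∀ β : ℝ, 7 / 5 ≤ β → β < 2 → (β / 2) ^ ((3 / 2 : ℝ) ^ k) < 7 / 10 →
      ∃ δ : ℝ, 0 < δ ∧ ∀ (A : Set ℕ) (a b : ℕ → ℕ),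
      IsPerfectDifferenceSet A → (∀ d, 1 ≤ d → a d ∈ A ∧ b d ∈ A ∧ a d = b d + d) →
      ¬ Hyp a β δ := by
    intro k
    induction k with
    | zero =>
      intro β h1 h2 h3
      rw [pow_zero, Real.rpow_one] at h3
      linarith
    | succ k ih =>
      intro β h1 h2 h3
      have hb0 : 0 < β / 2 := by linarith
      obtain ⟨β', hβ'⟩ : ∃ β' : ℝ, β' = 2 * (β / 2) ^ (3 / 2 : ℝ) := ⟨_, rfl⟩
      have e1 : β' / 2 = (β / 2) ^ (3 / 2 : ℝ) := by rw [hβ']; ring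
      have e2 : (β' / 2) ^ ((3 / 2 : ℝ) ^ k) < 7 / 10 := by
        rw [e1, ← Real.rpow_mul hb0.le]
        rw [pow_succ, mul_comm] at h3
        exact h3
      have e3 : β' < 2 := by
        rw [hβ']
        have : (β / 2) ^ (3 / 2 : ℝ) < 1 := Real.rpow_lt_one hb0.le (by linarith) (by norm_num)
        linarith
      have e4 : β ^ 2 / 2 < β' := by
        have : (β / 2) ^ (2 : ℝ) < (β / 2) ^ (3 / 2 : ℝ) :=
          Real.rpow_lt_rpow_of_exponent_gt hb0 (by linarith) (by norm_num)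
        rw [Real.rpow_two] at this
        rw [hβ']
        nlinarith
      have e5 : 1 < β' := by
        have h4 : (7 / 10 : ℝ) ^ (3 / 2 : ℝ) ≤ (β / 2) ^ (3 / 2 : ℝ) :=
          Real.rpow_le_rpow (by norm_num) (by linarith) (by norm_num)
        have h5 : (29 / 50 : ℝ) ≤ (7 / 10 : ℝ) ^ (3 / 2 : ℝ) := by
          have h6 : (7 / 10 : ℝ) ^ (3 / 2 : ℝ) = Real.sqrt ((7 / 10) ^ 3) := by
            rw [Real.sqrt_eq_rpow, ← Real.rpow_natCast, ← Real.rpow_mul (by norm_num)]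
            norm_num
          rw [h6]
          apply Real.le_sqrt_of_sq_le
          norm_num
        rw [hβ']
        linarith
      by_cases hc : 7 / 5 ≤ β'
      · obtain ⟨δ, hδ, hall⟩ := ih β' hc e3 e2
        refine ⟨δ / 8, by linarith, ?_⟩
        intro A a b hA hab hH
        have := step hA hab (by linarith) h2 e5 e4 (by linarith) hH
        rw [show 8 * (δ / 8) = δ by ring] at this
        exact hall A a b hA hab this
      · push Not at hc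
        refine ⟨1 / 80, by norm_num, ?_⟩
        intro A a b hA hab hH
        have := step hA hab (by linarith) h2 e5 e4 (by norm_num) hH
        exact last hA hab (by linarith) hc.le (by norm_num) (by norm_num) this
  obtain ⟨β₁, hβ₁⟩ : ∃ β₁ : ℝ, β₁ = max β (7 / 5) := ⟨_, rfl⟩
  have h1 : 7 / 5 ≤ β₁ := by rw [hβ₁]; exact le_max_right _ _
  have h2 : β₁ < 2 := by rw [hβ₁]; exact max_lt hβ (by norm_num)
  have h3 : β ≤ β₁ := by rw [hβ₁]; exact le_max_left _ _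
  obtain ⟨k, hk⟩ : ∃ k : ℕ, (β₁ / 2) ^ ((3 / 2 : ℝ) ^ k) < 7 / 10 := by
    have t1 : Tendsto (fun k : ℕ => (3 / 2 : ℝ) ^ k) atTop atTop :=
      tendsto_pow_atTop_atTop_of_one_lt (by norm_num)
    have t2 : Tendsto (fun x : ℝ => (β₁ / 2) ^ x) atTop (nhds 0) :=
      tendsto_rpow_atTop_of_base_lt_one _ (by linarith) (by linarith)
    exact ((t2.comp t1).eventually (gt_mem_nhds (show (0 : ℝ) < 7 / 10 by norm_num))).exists
  obtain ⟨δ, hδ, hall⟩ := key k β₁ h1 h2 hk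
  exact ⟨δ, hδ, fun A a b hA hab hH => hall A a b hA hab (Hyp_mono h3 hH)⟩

end Pool.Agent.H88.PD
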