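import Mathlib

/-!
Perfect difference sets (MP_35c1fe_nt): basic counting lemmas (as in `NearQuadratic`).
-/

set_option autoImplicit false

namespace Pool.Agent.H88.PD

open Filter Asymptotics

/-- A perfect difference set: a set of positive integers in which every integer `n ≥ 1` is
`a - b` for exactly one pair `(a, b)` of elements. -/
def IsPerfectDifferenceSet (A : Set ℕ) : Prop :=
  (∀ a ∈ A, 1 ≤ a) ∧
    ∀ n : ℕ, 1 ≤ n → ∃! p : ℕ × ℕ, p.1 ∈ A ∧ p.2 ∈ A ∧ p.1 = p.2 + n

/-- spaced sets in an interval are small -/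
lemma card_le_of_gap (S : Finset ℕ) (u L g : ℕ) (hg : 1 ≤ g)
    (hS : ∀ x ∈ S, u ≤ x ∧ x ≤ u + L)
    (hgap : ∀ x ∈ S, ∀ y ∈ S, x < y → g ≤ y - x) : S.card ≤ L / g + 1 := by
  have h1 : S.card ≤ (Finset.range (L / g + 1)).card := by
    apply Finset.card_le_card_of_injOn (fun x => (x - u) / g)
    · intro x hx
      have := hS x (Finset.mem_coe.mp hx)
      simp only [Finset.coe_range, Set.mem_Iio]
      have : (x - u) / g ≤ L / g := Nat.div_le_div_right (by omega)
      omega
    · intro x hx y hy hxy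
      have hx1 := hS x (Finset.mem_coe.mp hx)
      have hy1 := hS y (Finset.mem_coe.mp hy)
      simp only at hxy
      by_contra hne
      rcases Nat.lt_or_gt_of_ne hne with hlt | hlt
      · have h2 := hgap x (Finset.mem_coe.mp hx) y (Finset.mem_coe.mp hy) hlt
        have h3 : (x - u) + g ≤ (y - u) := by omega
        have h4 : ((x - u) + g) / g ≤ (y - u) / g := Nat.div_le_div_right h3
        rw [Nat.add_div_right _ (by omega)] at h4
        omega
      · have h2 := hgap y (Finset.mem_coe.mp hy) x (Finset.mem_coe.mp hx) hlt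
        have h3 : (y - u) + g ≤ (x - u) := by omega
        have h4 : ((y - u) + g) / g ≤ (x - u) / g := Nat.div_le_div_right h3
        rw [Nat.add_div_right _ (by omega)] at h4
        omega
  simpa using h1

/-- uniqueness of the pair with a given difference -/
lemma pds_unique {A : Set ℕ} (hA : IsPerfectDifferenceSet A) {a b c d : ℕ} (ha : a ∈ A)
    (hb : b ∈ A) (hc : c ∈ A) (hd : d ∈ A) {n : ℕ} (hn : 1 ≤ n) (h1 : a = b + n)
    (h2 : c = d + n) : a = c ∧ b = d := by
  obtain ⟨p, _, hp⟩ := hA.2 n hn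
  have e1 := hp (a, b) ⟨ha, hb, h1⟩
  have e2 := hp (c, d) ⟨hc, hd, h2⟩
  have := e1.trans e2.symm
  exact ⟨congrArg Prod.fst this, congrArg Prod.snd this⟩

/-- Sidon bound: a finite part of a perfect difference set inside `[0, X]`. -/
lemma card_sidon {A : Set ℕ} (hA : IsPerfectDifferenceSet A) (T : Finset ℕ) (X : ℕ)
    (hT : ∀ x ∈ T, x ∈ A ∧ x ≤ X) : T.card * T.card - T.card ≤ 2 * X + 1 := by
  have h1 : T.offDiag.card ≤ (Finset.Icc (-(X : ℤ)) X).card := by
    apply Finset.card_le_card_of_injOn (fun p => (p.1 : ℤ) - p.2)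
    · intro p hp
      rw [Finset.mem_coe, Finset.mem_offDiag] at hp
      have h1 := hT _ hp.1
      have h2 := hT _ hp.2.1
      simp only [Finset.coe_Icc, Set.mem_Icc]
      omega
    · intro p hp q hq hpq
      rw [Finset.mem_coe, Finset.mem_offDiag] at hp hq
      simp only at hpq
      obtain ⟨hp1, hp2, hp3⟩ := hp
      obtain ⟨hq1, hq2, hq3⟩ := hq
      rcases Nat.lt_or_gt_of_ne hp3 with hlt | hlt
      · have hq4 : q.1 < q.2 := by omega
        have := pds_unique hA (hT _ hp2).1 (hT _ hp1).1 (hT _ hq2).1 (hT _ hq1).1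
          (n := p.2 - p.1) (by omega) (by omega) (by omega)
        exact Prod.ext this.2 this.1
      · have hq4 : q.2 < q.1 := by omega
        have := pds_unique hA (hT _ hp1).1 (hT _ hp2).1 (hT _ hq1).1 (hT _ hq2).1
          (n := p.1 - p.2) (by omega) (by omega) (by omega)
        exact Prod.ext this.1 this.2
  rw [Finset.offDiag_card] at h1
  rw [Int.card_Icc] at h1
  omega

/-- Number of differences in `D` whose larger element lies in a block. -/
lemma block_bound {A : Set ℕ} (a b : ℕ → ℕ)
    (hab : ∀ d, 1 ≤ d → a d ∈ A ∧ b d ∈ A ∧ a d = b d + d)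
    (n u L g : ℕ) (hg : 1 ≤ g) (hun : n ≤ u)
    (D : Finset ℕ) (hD : ∀ d ∈ D, 1 ≤ d ∧ d ≤ n ∧ u < a d ∧ a d ≤ u + L)
    (hgap : ∀ x ∈ A, ∀ y ∈ A, x < y → u - n < y → g ≤ y - x) :
    D.card ≤ (n / g) * (L / g + 1) := by
  classical
  have h1 : D.card ≤ (n / g) * (D.image a).card := by
    apply Finset.card_le_mul_card_image
    intro x hx
    rw [Finset.mem_image] at hx
    obtain ⟨d0, hd0, rfl⟩ := hx
    set x := a d0 with hxdef
    have hx0 := hD d0 hd0
    set F := (D.filter (fun d => a d = x)).image b with hF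
    have hFcard : F.card = (D.filter (fun d => a d = x)).card := by
      apply Finset.card_image_of_injOn
      intro d hd e he hde
      rw [Finset.mem_coe, Finset.mem_filter] at hd he
      have h1 := hab d (hD d hd.1).1
      have h2 := hab e (hD e he.1).1
      omega
    have hxF : x ∉ F := by
      intro hx
      rw [hF, Finset.mem_image] at hx
      obtain ⟨d, hd, hdx⟩ := hx
      rw [Finset.mem_filter] at hd
      have h1 := hab d (hD d hd.1).1
      have h2 := (hD d hd.1).1
      omega
    have hcard : (insert x F).card = F.card + 1 := Finset.card_insert_of_notMem hxF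
    have hmem : ∀ y ∈ insert x F, y ∈ A ∧ x - n ≤ y ∧ y ≤ (x - n) + n ∧ u - n < y := by
      intro y hy
      rw [Finset.mem_insert] at hy
      rcases hy with rfl | hy
      · refine ⟨(hab d0 hx0.1).1, ?_, ?_, ?_⟩ <;> omega
      · rw [hF, Finset.mem_image] at hy
        obtain ⟨d, hd, rfl⟩ := hy
        rw [Finset.mem_filter] at hd
        have h1 := hab d (hD d hd.1).1
        have h2 := (hD d hd.1)
        refine ⟨h1.2.1, ?_, ?_, ?_⟩ <;> omega
    have h2 := card_le_of_gap (insert x F) (x - n) n g hg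
      (fun y hy => ⟨(hmem y hy).2.1, (hmem y hy).2.2.1⟩)
      (fun y hy z hz hyz => hgap y (hmem y hy).1 z (hmem z hz).1 hyz (hmem z hz).2.2.2)
    omega
  have h2 : (D.image a).card ≤ L / g + 1 := by
    apply card_le_of_gap (D.image a) u L g hg
    · intro x hx
      rw [Finset.mem_image] at hx
      obtain ⟨d, hd, rfl⟩ := hx
      have := hD d hd
      omega
    · intro x hx y hy hxy
      rw [Finset.mem_image] at hx hy
      obtain ⟨d, hd, rfl⟩ := hx
      obtain ⟨e, he, rfl⟩ := hy
      have h1 := hD d hd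
      have h2 := hD e he
      exact hgap _ (hab d h1.1).1 _ (hab e h2.1).1 hxy (by omega)
  exact h1.trans (Nat.mul_le_mul_left _ h2)

/-- The lowest block. -/
lemma low_bound {A : Set ℕ} (a b : ℕ → ℕ)
    (hab : ∀ d, 1 ≤ d → a d ∈ A ∧ b d ∈ A ∧ a d = b d + d)
    (u L g t : ℕ) (hg : 1 ≤ g)
    (D : Finset ℕ) (hD : ∀ d ∈ D, 1 ≤ d ∧ u < a d ∧ a d ≤ u + L)
    (hgap : ∀ x ∈ A, ∀ y ∈ A, x < y → u < y → g ≤ y - x)
    (ht : ∀ T : Finset ℕ, (∀ x ∈ T, x ∈ A ∧ x ≤ u + L) → T.card ≤ t) :
    D.card ≤ t * (L / g + 1) := by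
  classical
  have h1 : D.card ≤ t * (D.image a).card := by
    apply Finset.card_le_mul_card_image
    intro x hx
    rw [Finset.mem_image] at hx
    obtain ⟨d0, hd0, rfl⟩ := hx
    set x := a d0 with hxdef
    have hx0 := hD d0 hd0
    set F := (D.filter (fun d => a d = x)).image b with hF
    have hFcard : F.card = (D.filter (fun d => a d = x)).card := by
      apply Finset.card_image_of_injOn
      intro d hd e he hde
      rw [Finset.mem_coe, Finset.mem_filter] at hd he
      have h1 := hab d (hD d hd.1).1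
      have h2 := hab e (hD e he.1).1
      omega
    rw [← hFcard]
    apply ht
    intro y hy
    rw [hF, Finset.mem_image] at hy
    obtain ⟨d, hd, rfl⟩ := hy
    rw [Finset.mem_filter] at hd
    have h1 := hab d (hD d hd.1).1
    have h2 := (hD d hd.1)
    exact ⟨h1.2.1, by omega⟩
  have h2 : (D.image a).card ≤ L / g + 1 := by
    apply card_le_of_gap (D.image a) u L g hg
    · intro x hx
      rw [Finset.mem_image] at hx
      obtain ⟨d, hd, rfl⟩ := hx
      have := hD d hd
      omega
    · intro x hx y hy hxy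
      rw [Finset.mem_image] at hx hy
      obtain ⟨d, hd, rfl⟩ := hx
      obtain ⟨e, he, rfl⟩ := hy
      have h1 := hD d hd
      have h2 := hD e he
      exact hgap _ (hab d h1.1).1 _ (hab e h2.1).1 hxy (by omega)
  exact h1.trans (Nat.mul_le_mul_left _ h2)


end Pool.Agent.H88.PD
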