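import Pool.Agent.H88.PD.Basic

/-!
Perfect difference sets (MP_35c1fe_nt): at every large scale `N` some difference `n ≤ N` has
`a_n ≥ n √N / 128`.
-/

set_option autoImplicit false

namespace Pool.Agent.H88.PD

open Filter

lemma geom_floor (J q : ℕ) : ∑ j ∈ Finset.range J, q / 2 ^ (j + 1) ≤ q := by
  induction J generalizing q with
  | zero => simp
  | succ J ih =>
    rw [Finset.sum_range_succ']
    have h1 : ∑ k ∈ Finset.range J, q / 2 ^ (k + 1 + 1) ≤ q / 2 := by
      refine le_trans (le_of_eq ?_) (ih (q / 2))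
      apply Finset.sum_congr rfl
      intro k _
      rw [pow_succ' 2 (k + 1), ← Nat.div_div_eq_div_mul]
    have h2 : q / 2 ^ (0 + 1) = q / 2 := by norm_num
    omega

/-- the combinatorial core, at one scale -/
lemma core_scale {A : Set ℕ} (hA : IsPerfectDifferenceSet A) (N s : ℕ) (hs : 1000 ≤ s)
    (hs1 : s ^ 2 ≤ N) (hs2 : N < (s + 1) ^ 2)
    (h : ∀ a ∈ A, ∀ b ∈ A, ∀ d, a = b + d → 1 ≤ d → d ≤ N → 64 * a ≤ d * (s + 1)) :
    False := by
  classical
  have hex : ∀ d : ℕ, ∃ p : ℕ × ℕ, 1 ≤ d → p.1 ∈ A ∧ p.2 ∈ A ∧ p.1 = p.2 + d := by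
    intro d
    by_cases hd : 1 ≤ d
    · obtain ⟨p, hp, _⟩ := hA.2 d hd
      exact ⟨p, fun _ => hp⟩
    · exact ⟨(0, 0), fun h => absurd h hd⟩
  choose p hp using hex
  set a : ℕ → ℕ := fun d => (p d).1 with ha
  set b : ℕ → ℕ := fun d => (p d).2 with hb
  have hab : ∀ d, 1 ≤ d → a d ∈ A ∧ b d ∈ A ∧ a d = b d + d := hp
  obtain ⟨r, hr⟩ : ∃ r, s = r + 1 := ⟨s - 1, by omega⟩
  have hr0 : 999 ≤ r := by omega
  have hN2 : N ≤ 2 * r ^ 2 := by
    subst hr
    nlinarith
  have hN1 : r * (s + 1) ≤ N := by
    subst hr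
    nlinarith
  -- the gap property
  have hgap : ∀ M g : ℕ, g * (s + 1) ≤ 64 * M → g ≤ N → ∀ x ∈ A, ∀ y ∈ A, x < y → M ≤ y →
      g ≤ y - x := by
    intro M g hg hgN x hx y hy hxy hMy
    by_cases hd : y - x ≤ N
    · have h1 := h y hy x hx (y - x) (by omega) (by omega) hd
      have h2 : g * (s + 1) ≤ (y - x) * (s + 1) :=
        hg.trans ((Nat.mul_le_mul_left 64 hMy).trans h1)
      exact Nat.le_of_mul_le_mul_right h2 (by omega)
    · omega
  set D : Finset ℕ := Finset.Ioc (N / 2) N with hD
  have hDcard : N ≤ 2 * D.card := by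
    rw [hD, Nat.card_Ioc]
    omega
  have hmemD : ∀ d ∈ D, 1 ≤ d ∧ N / 2 < d ∧ d ≤ N := by
    intro d hd
    rw [hD, Finset.mem_Ioc] at hd
    exact ⟨by omega, hd.1, hd.2⟩
  set Dlow : Finset ℕ := D.filter (fun d => a d ≤ 2 * N) with hDlow
  set Dj : ℕ → Finset ℕ :=
    fun j => D.filter (fun d => 2 ^ (j + 1) * N < a d ∧ a d ≤ 2 ^ (j + 2) * N) with hDj
  have hNpos : 0 < N := by nlinarith
  -- covering
  have hcover : D ⊆ Dlow ∪ (Finset.range s).biUnion Dj := by
    intro d hd
    obtain ⟨hd1, hd2, hd3⟩ := hmemD d hd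
    rw [Finset.mem_union]
    by_cases hlow : a d ≤ 2 * N
    · left
      rw [hDlow, Finset.mem_filter]
      exact ⟨hd, hlow⟩
    · right
      push Not at hlow
      rw [Finset.mem_biUnion]
      obtain ⟨h1, h2, h3⟩ := hab d hd1
      have h4 := h _ h1 _ h2 d h3 hd1 hd3
      have h5 : 64 * a d ≤ N * (s + 1) := h4.trans (Nat.mul_le_mul_right _ hd3)
      -- the exponent
      obtain ⟨j, hj1, hj2⟩ : ∃ j, 2 ^ (j + 1) * N < a d ∧ a d ≤ 2 ^ (j + 2) * N := by
        have hex : ∃ k, a d ≤ 2 ^ (k + 2) * N := by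
          refine ⟨a d, ?_⟩
          calc a d ≤ 2 ^ (a d + 2) * 1 := by
                rw [mul_one]
                exact (Nat.lt_two_pow_self (n := a d)).le.trans
                  (Nat.pow_le_pow_right (by norm_num) (by omega))
            _ ≤ 2 ^ (a d + 2) * N := Nat.mul_le_mul_left _ hNpos
        refine ⟨Nat.find hex, ?_, Nat.find_spec hex⟩
        rcases Nat.eq_zero_or_pos (Nat.find hex) with h0 | h0
        · rw [h0]
          simpa using hlow
        · have h6 := Nat.find_min hex (Nat.sub_lt h0 one_pos)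
          have h7 : Nat.find hex - 1 + 2 = Nat.find hex + 1 := by omega
          rw [h7] at h6
          omega
      refine ⟨j, ?_, ?_⟩
      · rw [Finset.mem_range]
        by_contra hlt
        push Not at hlt
        have h6 : 2 ^ (s + 1) ≤ 2 ^ (j + 1) := Nat.pow_le_pow_right (by norm_num) (by omega)
        have h7 : s + 1 < 2 ^ (s + 1) := Nat.lt_two_pow_self
        have h8 : N * (s + 1) < 2 ^ (j + 1) * N := by
          calc N * (s + 1) < N * 2 ^ (s + 1) := Nat.mul_lt_mul_of_pos_left h7 hNpos
            _ ≤ N * 2 ^ (j + 1) := Nat.mul_le_mul_left _ h6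
            _ = 2 ^ (j + 1) * N := mul_comm _ _
        omega
      · rw [hDj]
        simp only [Finset.mem_filter]
        exact ⟨hd, hj1, hj2⟩
  -- blocks
  have hblock : ∀ j, (Dj j).card ≤ ((r / 16) / 2 ^ (j + 1)) * (r / 16 + 1) := by
    intro j
    rcases (Dj j).eq_empty_or_nonempty with he | ⟨d, hd⟩
    · rw [he]
      simp
    · rw [hDj] at hd
      simp only [Finset.mem_filter] at hd
      obtain ⟨hdD, hd1, hd2⟩ := hd
      obtain ⟨e1, e2, e3⟩ := hmemD d hdD
      obtain ⟨h1, h2, h3⟩ := hab d e1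
      have h4 := h _ h1 _ h2 d h3 e1 e3
      have h5 : 64 * a d ≤ N * (s + 1) := h4.trans (Nat.mul_le_mul_right _ e3)
      have h6 : 64 * 2 ^ (j + 1) ≤ s + 1 := by
        have : N * (64 * 2 ^ (j + 1)) ≤ N * (s + 1) := by
          calc N * (64 * 2 ^ (j + 1)) = 64 * (2 ^ (j + 1) * N) := by ring
            _ ≤ 64 * a d := Nat.mul_le_mul_left _ hd1.le
            _ ≤ N * (s + 1) := h5
        exact Nat.le_of_mul_le_mul_left this hNpos
      obtain ⟨w, hw⟩ : ∃ w, w = 2 ^ j := ⟨_, rfl⟩
      have hw1 : 1 ≤ w := by rw [hw]; exact Nat.one_le_two_pow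
      have hw2 : 2 ^ (j + 1) = 2 * w := by rw [pow_succ, hw]; ring
      have hw3 : 2 ^ (j + 2) = 4 * w := by rw [pow_succ, hw2]; ring
      have hg1 : 1 ≤ 64 * w * r := by
        have : 1 * 1 ≤ (64 * w) * r := Nat.mul_le_mul (by omega) (by omega)
        omega
      have hbb := block_bound a b hab N (2 * w * N) (2 * w * N) (64 * w * r) hg1
        (by nlinarith) (Dj j) (by
          intro e he
          rw [hDj] at he
          simp only [Finset.mem_filter] at he
          obtain ⟨f1, f2, f3⟩ := hmemD e he.1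
          refine ⟨f1, f3, ?_, ?_⟩
          · rw [← hw2]; exact he.2.1
          · have := he.2.2
            rw [hw3] at this
            calc a e ≤ 4 * w * N := this
              _ = 2 * w * N + 2 * w * N := by ring) (by
          intro x hx y hy hxy hlt
          refine hgap (w * N) (64 * w * r) ?_ ?_ x hx y hy hxy ?_
          · calc 64 * w * r * (s + 1) = 64 * w * (r * (s + 1)) := by ring
              _ ≤ 64 * w * N := Nat.mul_le_mul_left _ hN1
              _ = 64 * (w * N) := by ring
          · rw [hw2] at h6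
            have h7 : 64 * w ≤ s + 1 := by omega
            calc 64 * w * r ≤ (s + 1) * r := Nat.mul_le_mul_right _ h7
              _ = r * (s + 1) := mul_comm _ _
              _ ≤ N := hN1
          · have : N ≤ w * N := Nat.le_mul_of_pos_left _ (by omega)
            have e5 : 2 * w * N = w * N + w * N := by ring
            omega)
      refine hbb.trans ?_
      have k1 : N / (64 * w * r) ≤ (r / 16) / 2 ^ (j + 1) := by
        calc N / (64 * w * r) ≤ (2 * r ^ 2) / (64 * w * r) := Nat.div_le_div_right hN2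
          _ = (r * (2 * r)) / ((32 * w) * (2 * r)) := by
              congr 1
              · ring
              · ring
          _ = r / (32 * w) := Nat.mul_div_mul_right _ _ (by omega)
          _ = r / (16 * (2 * w)) := by congr 1; ring
          _ = (r / 16) / 2 ^ (j + 1) := by rw [hw2, Nat.div_div_eq_div_mul]
      have k2 : 2 * w * N / (64 * w * r) ≤ r / 16 := by
        calc 2 * w * N / (64 * w * r) ≤ (2 * w * (2 * r ^ 2)) / (64 * w * r) :=
              Nat.div_le_div_right (Nat.mul_le_mul_left _ hN2)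
          _ = (r * (4 * w * r)) / (16 * (4 * w * r)) := by
              congr 1
              · ring
              · ring
          _ = r / 16 := Nat.mul_div_mul_right _ _ (by positivity)
      exact Nat.mul_le_mul k1 (by omega)
  have hblocks : ((Finset.range s).biUnion Dj).card ≤ (r / 16) * (r / 16 + 1) := by
    calc ((Finset.range s).biUnion Dj).card ≤ ∑ j ∈ Finset.range s, (Dj j).card :=
          Finset.card_biUnion_le
      _ ≤ ∑ j ∈ Finset.range s, ((r / 16) / 2 ^ (j + 1)) * (r / 16 + 1) :=
          Finset.sum_le_sum fun j _ => hblock j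
      _ = (∑ j ∈ Finset.range s, (r / 16) / 2 ^ (j + 1)) * (r / 16 + 1) := by
          rw [Finset.sum_mul]
      _ ≤ (r / 16) * (r / 16 + 1) := Nat.mul_le_mul_right _ (geom_floor s _)
  -- low part
  have hlow : Dlow.card ≤ (2 * s + 3) * (r / 8 + 1) := by
    have hlb := low_bound a b hab (N / 2) (2 * N - N / 2) (32 * r) (2 * s + 3)
      (by omega) Dlow (by
        intro d hd
        rw [hDlow, Finset.mem_filter] at hd
        obtain ⟨f1, f2, f3⟩ := hmemD d hd.1
        have := (hab d f1).2.2
        have := hd.2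
        refine ⟨f1, by omega, by omega⟩) (by
        intro x hx y hy hxy hlt
        refine hgap (N / 2 + 1) (32 * r) ?_ ?_ x hx y hy hxy (by omega)
        · have : 32 * r * (s + 1) ≤ 32 * N := by
            calc 32 * r * (s + 1) = 32 * (r * (s + 1)) := by ring
              _ ≤ 32 * N := Nat.mul_le_mul_left _ hN1
          omega
        · have : 32 * r ≤ r * (s + 1) := by
            calc 32 * r = r * 32 := mul_comm _ _
              _ ≤ r * (s + 1) := Nat.mul_le_mul_left _ (by omega)
          omega) (by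
        intro T hT
        have h1 := card_sidon hA T (2 * N) (fun x hx => ⟨(hT x hx).1, by
          have := (hT x hx).2
          omega⟩)
        by_contra hlt
        push Not at hlt
        have h2 : (2 * s + 4) * (2 * s + 3) ≤ T.card * (T.card - 1) := by
          apply Nat.mul_le_mul <;> omega
        have h3 : T.card * T.card - T.card = T.card * (T.card - 1) := by
          rw [Nat.mul_sub, mul_one]
        rw [h3] at h1
        nlinarith)
    refine hlb.trans (Nat.mul_le_mul_left _ ?_)
    have : (2 * N - N / 2) / (32 * r) ≤ r / 8 := by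
      calc (2 * N - N / 2) / (32 * r) ≤ (4 * r ^ 2) / (32 * r) :=
            Nat.div_le_div_right (by omega)
        _ = (r * (4 * r)) / (8 * (4 * r)) := by
            congr 1
            · ring
            · ring
        _ = r / 8 := Nat.mul_div_mul_right _ _ (by omega)
    omega
  -- conclusion
  have htot : D.card ≤ (2 * s + 3) * (r / 8 + 1) + (r / 16) * (r / 16 + 1) := by
    calc D.card ≤ (Dlow ∪ (Finset.range s).biUnion Dj).card := Finset.card_le_card hcover
      _ ≤ Dlow.card + ((Finset.range s).biUnion Dj).card := Finset.card_union_le _ _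
      _ ≤ _ := Nat.add_le_add hlow hblocks
  have e1 : 8 * (r / 8) ≤ r := Nat.mul_div_le _ _
  have e2 : 16 * (r / 16) ≤ r := Nat.mul_div_le _ _
  generalize r / 8 = P at *
  generalize r / 16 = Q at *
  subst hr
  have f1 : N ≤ 2 * ((2 * (r + 1) + 3) * (P + 1) + Q * (Q + 1)) := by omega
  nlinarith

end Pool.Agent.H88.PD
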