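import Pool.Agent.H88.PD.Basic

/-!
Window counting for finite sets of integers.
-/

set_option autoImplicit false

namespace Pool.Agent.H88.PD

/-- pairs at distance at most `N` -/
def pr (B : Finset ℕ) (N : ℕ) : Finset (ℕ × ℕ) :=
  (B ×ˢ B).filter (fun p => p.1 < p.2 ∧ p.2 ≤ p.1 + N)

/-- pairs of elements in the same window of length `w` -/
def same (B : Finset ℕ) (w : ℕ) : Finset (ℕ × ℕ) :=
  (B ×ˢ B).filter (fun p => p.1 / w = p.2 / w)

lemma card_shift (B : Finset ℕ) (w t : ℕ) :
    ((B ×ˢ B).filter (fun p => p.2 / w = p.1 / w + t)).card ≤ (same B w).card := by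
  classical
  obtain ⟨M, hM⟩ : ∃ M, ∀ x ∈ B, x / w < M :=
    ⟨B.sup id + 1, fun x hx => by
      have h1 : x ≤ B.sup id := Finset.le_sup (f := id) hx
      have h2 : x / w ≤ x := Nat.div_le_self _ _
      omega⟩
  set c : ℕ → ℕ := fun i => (B.filter (fun x => x / w = i)).card with hc
  have hc0 : ∀ i, M ≤ i → c i = 0 := by
    intro i hi
    rw [hc]
    simp only [Finset.card_eq_zero, Finset.filter_eq_empty_iff]
    intro x hx h
    have := hM x hx
    omega
  have key : ∀ t : ℕ, ((B ×ˢ B).filter (fun p => p.2 / w = p.1 / w + t)).card =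
      ∑ i ∈ Finset.range M, c i * c (i + t) := by
    intro t
    rw [Finset.card_eq_sum_card_fiberwise (f := fun p : ℕ × ℕ => p.1 / w)
      (t := Finset.range M)]
    · apply Finset.sum_congr rfl
      intro i _
      rw [hc]
      simp only
      rw [← Finset.card_product]
      congr 1
      ext ⟨x, y⟩
      simp only [Finset.mem_filter, Finset.mem_product]
      constructor
      · rintro ⟨⟨⟨h1, h2⟩, h3⟩, h4⟩
        exact ⟨⟨h1, h4⟩, h2, by rw [h3, h4]⟩
      · rintro ⟨⟨h1, h2⟩, h3, h4⟩
        exact ⟨⟨⟨h1, h3⟩, by rw [h4, h2]⟩, h2⟩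
    · intro p hp
      have hp1 := Finset.mem_coe.1 hp
      simp only [Finset.mem_filter, Finset.mem_product] at hp1
      simp only [Finset.coe_range, Set.mem_Iio]
      exact hM _ hp1.1.1
  have key0 : (same B w).card = ∑ i ∈ Finset.range M, c i * c i := by
    rw [same]
    have e : (B ×ˢ B).filter (fun p : ℕ × ℕ => p.1 / w = p.2 / w) =
        (B ×ˢ B).filter (fun p : ℕ × ℕ => p.2 / w = p.1 / w + 0) := by
      apply Finset.filter_congr
      intro p _
      constructor
      · intro h; omega
      · intro h; omega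
    rw [e, key 0]
    simp
  have hshift : ∑ i ∈ Finset.range M, c (i + t) * c (i + t) ≤
      ∑ i ∈ Finset.range M, c i * c i := by
    calc ∑ i ∈ Finset.range M, c (i + t) * c (i + t)
        = ∑ i ∈ Finset.Ico t (M + t), c i * c i := by
          rw [Finset.sum_Ico_eq_sum_range]
          simp only [Nat.add_sub_cancel]
          apply Finset.sum_congr rfl
          intro i _
          rw [add_comm t i]
      _ ≤ ∑ i ∈ Finset.range (M + t), c i * c i := by
          apply Finset.sum_le_sum_of_subset
          intro i hi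
          rw [Finset.mem_Ico] at hi
          rw [Finset.mem_range]
          exact hi.2
      _ = ∑ i ∈ Finset.range M, c i * c i := by
          rw [← Finset.sum_range_add_sum_Ico (fun i => c i * c i) (show M ≤ M + t by omega)]
          have : ∑ i ∈ Finset.Ico M (M + t), c i * c i = 0 := by
            apply Finset.sum_eq_zero
            intro i hi
            rw [Finset.mem_Ico] at hi
            simp [hc0 i hi.1]
          omega
  have hAG : 2 * ∑ i ∈ Finset.range M, c i * c (i + t) ≤
      ∑ i ∈ Finset.range M, c i * c i + ∑ i ∈ Finset.range M, c (i + t) * c (i + t) := by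
    rw [Finset.mul_sum, ← Finset.sum_add_distrib]
    apply Finset.sum_le_sum
    intro i _
    nlinarith [Nat.le_total (c i) (c (i + t)), two_mul_le_add_sq (c i) (c (i + t))]
  rw [key t, key0]
  omega

lemma card_same (B : Finset ℕ) (w : ℕ) (hw : 1 ≤ w) :
    (same B w).card ≤ B.card + 2 * (pr B (w - 1)).card := by
  classical
  have h1 : same B w ⊆ (B.image (fun x => (x, x))) ∪ (pr B (w - 1) ∪
      (pr B (w - 1)).image Prod.swap) := by
    rintro ⟨x, y⟩ hxy
    rw [same, Finset.mem_filter, Finset.mem_product] at hxy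
    obtain ⟨⟨hx, hy⟩, h⟩ := hxy
    simp only at hx hy h
    have hx1 := Nat.div_add_mod x w
    have hy1 := Nat.div_add_mod y w
    have hx2 := Nat.mod_lt x hw
    have hy2 := Nat.mod_lt y hw
    rw [h] at hx1
    rw [Finset.mem_union, Finset.mem_union]
    rcases Nat.lt_trichotomy x y with hlt | heq | hlt
    · right; left
      rw [pr, Finset.mem_filter, Finset.mem_product]
      exact ⟨⟨hx, hy⟩, hlt, by simp only; omega⟩
    · left
      rw [Finset.mem_image]
      exact ⟨x, hx, by rw [heq]⟩
    · right; right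
      rw [Finset.mem_image]
      refine ⟨(y, x), ?_, rfl⟩
      rw [pr, Finset.mem_filter, Finset.mem_product]
      exact ⟨⟨hy, hx⟩, hlt, by simp only; omega⟩
  have h2 := Finset.card_le_card h1
  have h3 := Finset.card_union_le (B.image (fun x => (x, x))) (pr B (w - 1) ∪
      (pr B (w - 1)).image Prod.swap)
  have h4 := Finset.card_union_le (pr B (w - 1)) ((pr B (w - 1)).image Prod.swap)
  have h5 : (B.image (fun x => (x, x))).card ≤ B.card := Finset.card_image_le
  have h6 : ((pr B (w - 1)).image Prod.swap).card ≤ (pr B (w - 1)).card := Finset.card_image_le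
  omega

/-- comparison of the number of pairs at distance `≤ N` and `< w` -/
lemma card_pr_le (B : Finset ℕ) (N w s : ℕ) (hw : 1 ≤ w) (hN : N ≤ s * w) :
    (pr B N).card ≤ (s + 1) * (B.card + 2 * (pr B (w - 1)).card) := by
  classical
  have h1 : pr B N ⊆ (Finset.range (s + 1)).biUnion
      (fun t => (B ×ˢ B).filter (fun p => p.2 / w = p.1 / w + t)) := by
    rintro ⟨x, y⟩ hxy
    rw [pr, Finset.mem_filter, Finset.mem_product] at hxy
    obtain ⟨⟨hx, hy⟩, h, h'⟩ := hxy
    simp only at hx hy h h'
    have e1 : x / w ≤ y / w := Nat.div_le_div_right h.le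
    have e2 : y / w ≤ x / w + s := by
      calc y / w ≤ (x + s * w) / w := Nat.div_le_div_right (by omega)
        _ = x / w + s := Nat.add_mul_div_right _ _ hw
    rw [Finset.mem_biUnion]
    refine ⟨y / w - x / w, Finset.mem_range.2 (by omega), ?_⟩
    rw [Finset.mem_filter, Finset.mem_product]
    exact ⟨⟨hx, hy⟩, by simp only; omega⟩
  calc (pr B N).card ≤ _ := Finset.card_le_card h1
    _ ≤ ∑ t ∈ Finset.range (s + 1),
        ((B ×ˢ B).filter (fun p => p.2 / w = p.1 / w + t)).card := Finset.card_biUnion_le
    _ ≤ ∑ t ∈ Finset.range (s + 1), (B.card + 2 * (pr B (w - 1)).card) :=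
        Finset.sum_le_sum fun t _ => (card_shift B w t).trans (card_same B w hw)
    _ = (s + 1) * (B.card + 2 * (pr B (w - 1)).card) := by
        rw [Finset.sum_const, Finset.card_range, smul_eq_mul]

end Pool.Agent.H88.PD
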